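import Pool.Agent.H60.CogD

set_option autoImplicit false

namespace Pool.Agent.Results.MP_8eb3db_al.Counter

open Pool.Agent.H60.Cog

/-- For every rank `m ≥ 1500012` the free group `F_m` has a subgroup that is not finitely generated
and whose cogrowth series is rational. -/
theorem result (m : ℕ) (hm : 1500012 ≤ m) :
    ∃ H : Subgroup (FreeGroup (Fin m)), ¬ H.FG ∧
      ∃ P Q : Polynomial ℚ, Q ≠ 0 ∧
        (Q : PowerSeries ℚ) *
          PowerSeries.mk (fun n => (Nat.card {h : H // FreeGroup.norm (h : FreeGroup (Fin m)) = n} : ℚ))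
          = (P : PowerSeries ℚ) := by
  obtain ⟨k, rfl⟩ : ∃ k, m = 12 + k := ⟨m - 12, by omega⟩
  obtain ⟨H, L, hH, hL, e⟩ := exists_subgroup k (by omega)
  refine ⟨H, hH, 1 - 2 * Polynomial.X, 1 - 2 * Polynomial.X - 200000 * Polynomial.X ^ L, ?_, ?_⟩
  · intro h
    have := congrArg (Polynomial.eval 0) h
    simp [hL.ne'] at this
  · have e2 := congrArg (PowerSeries.map (Int.castRingHom ℚ)) e
    have e3 : PowerSeries.map (Int.castRingHom ℚ) (gf (H : Set (FreeGroup (Fin (12 + k)))))
        = PowerSeries.mk (fun n =>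
          (Nat.card {h : H // FreeGroup.norm (h : FreeGroup (Fin (12 + k))) = n} : ℚ)) := by
      ext n
      simp only [gf, PowerSeries.coeff_map, PowerSeries.coeff_mk, map_natCast]
      congr 1
      rw [← Nat.card_eq_finsetCard]
      exact Nat.card_congr
        { toFun := fun g => ⟨⟨g.1, (mem_sph.1 g.2).1⟩, (mem_sph.1 g.2).2⟩
          invFun := fun g => ⟨g.1.1, mem_sph.2 ⟨g.1.2, g.2⟩⟩
          left_inv := fun _ => rfl
          right_inv := fun _ => rfl }
    rw [map_mul, e3] at e2
    have c2 : ((2 : Polynomial ℚ) : PowerSeries ℚ) = 2 := map_ofNat Polynomial.coeToPowerSeries.ringHom 2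
    have c3 : ((200000 : Polynomial ℚ) : PowerSeries ℚ) = 200000 :=
      map_ofNat Polynomial.coeToPowerSeries.ringHom 200000
    simpa [c2, c3, map_ofNat] using e2

end Pool.Agent.Results.MP_8eb3db_al.Counter
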